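import Pool.Agent.H37.CND.Stmts

/-!
# Row SUB: `ram 0` and `ram 1` are subgroups
-/

set_option autoImplicit false

namespace Pool.CND

section

variable {k L G : Type} [Field k] [Field L] [Algebra k L] [Group G]

theorem mem_ram_iff (P : Place k L) (ρ : G →* (L ≃ₐ[k] L)) (i : ℕ) (g : G) :
    g ∈ ram P ρ i ↔ Fixes P (ρ g) ∧
      ∀ u : L, u ≠ 0 → P.ord u = 1 → P.Ge (ρ g u - u) ((i : ℤ) + 1) := by
  constructor
  · rintro ⟨h1, h2⟩
    refine ⟨h1, fun u hu hu1 => ?_⟩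
    rcases h2 u hu hu1 with h | h
    · exact Or.inl (by rw [h, sub_self])
    · exact Or.inr h
  · rintro ⟨h1, h2⟩
    refine ⟨h1, fun u hu hu1 => ?_⟩
    rcases h2 u hu hu1 with h | h
    · exact Or.inl (sub_eq_zero.1 h)
    · exact Or.inr h

/-- the ramification group as a subgroup -/
def ramSub (P : Place k L) (ρ : G →* (L ≃ₐ[k] L)) (i : ℕ) : Subgroup G where
  carrier := ram P ρ i
  one_mem' := by
    rw [mem_ram_iff]
    refine ⟨by rw [map_one]; exact Fixes.one, fun u _ _ => ?_⟩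
    rw [map_one, AlgEquiv.one_apply, sub_self]
    exact P.ge_zero _
  mul_mem' := by
    intro a b ha hb
    rw [mem_ram_iff] at ha hb ⊢
    refine ⟨by rw [map_mul]; exact ha.1.mul hb.1, fun u hu hu1 => ?_⟩
    have h1 : ρ (a * b) u - u = ρ a (ρ b u - u) + (ρ a u - u) := by
      rw [map_mul, AlgEquiv.mul_apply, map_sub]
      ring
    rw [h1]
    exact P.ge_add (ha.1.ge (hb.2 u hu hu1)) (ha.2 u hu hu1)
  inv_mem' := by
    intro a ha
    have ha' : a ∈ ram P ρ i := ha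
    change a⁻¹ ∈ ram P ρ i
    rw [mem_ram_iff] at ha' ⊢
    have hinv : Fixes P (ρ a)⁻¹ := ha'.1.inv
    refine ⟨by rw [map_inv]; exact hinv, fun u hu hu1 => ?_⟩
    have h1 : ρ a⁻¹ u - u = -((ρ a)⁻¹ (ρ a u - u)) := by
      rw [map_inv, map_sub, ← AlgEquiv.mul_apply (ρ a)⁻¹ (ρ a) u, inv_mul_cancel,
        AlgEquiv.one_apply]
      ring
    rw [h1]
    exact P.ge_neg (hinv.ge (ha'.2 u hu hu1))

end

theorem sub_thm : S_SUB := by
  intro k L G _ _ _ _ P ρ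
  refine ⟨ramSub P ρ 1, ramSub P ρ 0, rfl, rfl, ?_, ?_⟩
  · intro g hg
    have hg' : g ∈ ram P ρ 1 := hg
    change g ∈ ram P ρ 0
    rw [mem_ram_iff] at hg' ⊢
    exact ⟨hg'.1, fun u hu hu1 => P.ge_mono (hg'.2 u hu hu1) (by norm_num)⟩
  · intro g hg n hn
    have hg' : g ∈ ram P ρ 0 := hg
    have hn' : n ∈ ram P ρ 1 := hn
    change g * n * g⁻¹ ∈ ram P ρ 1
    rw [mem_ram_iff] at hg' hn' ⊢
    have hinv : Fixes P (ρ g)⁻¹ := hg'.1.inv
    refine ⟨?_, fun u hu hu1 => ?_⟩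
    · rw [map_mul, map_mul, map_inv]
      exact (hg'.1.mul hn'.1).mul hinv
    · have hu' : (ρ g)⁻¹ u ≠ 0 := by simpa using hu
      have hu1' : P.ord ((ρ g)⁻¹ u) = 1 := by rw [hinv u hu, hu1]
      have h2 := hn'.2 _ hu' hu1'
      have h1 : ρ (g * n * g⁻¹) u - u = ρ g (ρ n ((ρ g)⁻¹ u) - (ρ g)⁻¹ u) := by
        rw [map_mul, map_mul, map_inv, AlgEquiv.mul_apply, AlgEquiv.mul_apply, map_sub,
          ← AlgEquiv.mul_apply (ρ g) (ρ g)⁻¹ u, mul_inv_cancel, AlgEquiv.one_apply]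
      rw [h1]
      exact hg'.1.ge h2

end Pool.CND
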